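import Pool.Agent.Helper37K9.SU.Fin

/-!
# Images of complete intersections under maps of degree at most `5 m / 2 + 1`

Let `V` be a smooth complete intersection of dimension `n ≥ 1` of hypersurfaces `F_k = 0` of
degrees `d_k`, `k ∈ κ`, in the projective space `P^N`, with `K_V = O(m)`, `m = Σ d_k - N - 1`. Let
`W` be a smooth projective variety with a dominant rational map `V ⇢ W` of degree
`r ≤ 5 m / 2 + 1`. Nothing is assumed on the fibres of the map. Let `s = 1` if `r ≤ 2 m + 1` and
`s = 2` otherwise, let `ρ = max(r, s m + 2)`, and let `k ∈ κ` be such that `s d_k ≤ ρ + s m + 1` and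
`s d_j < ρ` for all `j ≠ k`. The theorem:

* if `p_g(W) = 0`, then `r ≥ m + 2`, and `W` is dominated by a component of a hyperplane section of
  the complete intersection of the hypersurfaces `F_j = 0`, `j ≠ k`;
* if moreover `Σ_{j ≠ k} d_j ≤ N - 2` (for smooth `V` this says that `d_k ≥ m + 3`), then these are
  equivalent: `p_g(W) = 0`; `κ(W) = -∞`; `K_W` is not pseudo-effective (that is, `W` has a Gauduchon
  metric with positive total scalar curvature); `W` is uniruled;
* if `V` is a hypersurface, then these are equivalent: `p_g(W) = 0`; `κ(W) = -∞`; `K_W` is not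
  pseudo-effective; `W` is uniruled; `W` is unirational.

For instance, the conditions on the degrees are satisfied for all smooth hypersurfaces `V` of degree
`d ≥ 2 n + 3` (then `m = d - n - 2 ≥ n + 1`). More generally `V` may be any component of dimension
`n`, arbitrarily singular, of a complete intersection which is reduced along it, if some canonical
form of `V` vanishes at least `m` times on the hyperplane sections. The results of the starting
repository, and those on images of complete intersections without assumptions on the fibres, concern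
the degrees `r ≤ 2 m + 1`; there the fibres are collinear if `p_g(W) = 0`. From `r = 2 m + 2` on this
is no longer so.

Proof. The traces of the canonical forms `A ω`, `A` of degree `m`, are canonical forms of `W`. If
`p_g(W) = 0` then there is a linear relation, with coefficients different from zero, between the
values of the forms of degree `m` at the points of the general fibre (the condition of Cayley and
Bacharach). If a set of at most `5 m / 2 + 1` points has such a relation then it lies on two skew
lines or on a conic. If the points lie on a rational normal curve of degree `s ≤ 2`, then the theorem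
on maps with this property (`Pool/Agent/Helper37K9/RN`) applies. Otherwise they lie on two lines, but
not on one. The monodromy group of the map is transitive on the fibre; so the number of the points of
the fibre on the lines through a given point of the fibre and further points of the fibre, which
contain a third one, does not depend on the point. Hence the intersection of the two lines is not a
point of the fibre, and each line contains half of the points. So the map factors as
`V ⇢ W' ⇢ W`, with `[W' : W] = 2`, and the fibres of `V ⇢ W'` are collinear, with `r / 2 ≥ m + 1`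
points. It is not clear that `p_g(W') = 0` (only the traces to `W` vanish), but the residual points
of `V` on the lines still cannot dominate `V`: their conjugates over `W` lie on two different lines
and satisfy the relation in degree `m`, so that each line contains at least `m + 1` of them. So the
lines form a family of order one, and `W'`, hence `W`, is dominated by the hyperplane sections of the
variety swept out by the lines.

The function-field language of the starting repository is used: `K` is the function field of `V`,
and `L`, a subfield of `K`, the function field of `W`. A canonical form (`IsPluri 1`) on a variety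
of dimension `n` is a function of `n` rational vector fields; it is regular at the prime divisor `P`
(`Place`, `Divisorial`, `RegAt`) if its value on vector fields which are regular at `P` is regular
at `P`. `KodGe ℂ L n (fun _ => False) 0` says that `κ(W) ≥ 0`, `Psef ℂ L n (fun _ => False)` that
`K_W` is pseudo-effective (`Pool/Agent/W602/GT`), `IsUniruled ℂ L n` that `W` is uniruled
(`Pool/Agent/W619/PQ/Defs.lean`).
-/

set_option autoImplicit false
set_option linter.overlappingInstances false
set_option linter.unusedDecidableInType false

open FF MvPolynomial Pool.Agent.W602.GT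
open Pool.Agent.W619.PQ (IsUniruled)

namespace Pool.Agent.Results.MP_23b606_ag.ImagesOfHigherDegree

section

variable {κ : Type} {N : ℕ}

/-- The hypersurfaces `F k = 0` of projective `N`-space meet transversally: the gradients of the
equations are linearly independent at all common zeros. -/
def IsSmooth (F : κ → MvPolynomial (Fin (N + 1)) ℂ) : Prop :=
  ∀ z : Fin (N + 1) → ℂ, z ≠ 0 → (∀ k, eval z (F k) = 0) →
    LinearIndependent ℂ fun (k : κ) (l : Fin (N + 1)) => eval z (pderiv l (F k))

variable {K : Type} [Field K] [Algebra ℂ K]

/-- `x` is the generic point of an irreducible component, of dimension `n`, of the intersection of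
the hypersurfaces `F k = 0` of projective `N`-space, and `K` is its function field; the homogeneous
coordinates are normalised by `x i = 1`. -/
structure IsGenericPoint (n : ℕ) (F : κ → MvPolynomial (Fin (N + 1)) ℂ) (i : Fin (N + 1))
    (x : Fin (N + 1) → K) : Prop where
  one : x i = 1
  zero : ∀ k, aeval x (F k) = 0
  gen : IntermediateField.adjoin ℂ (Set.range x) = ⊤
  dim : Algebra.trdeg ℂ K = n

/-- The gradients of the equations are linearly independent at the generic point. -/
def IsTransversal (F : κ → MvPolynomial (Fin (N + 1)) ℂ) (x : Fin (N + 1) → K) : Prop :=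
  LinearIndependent K fun (k : κ) (l : Fin (N + 1)) => aeval x (pderiv l (F k))

/-- There is a canonical form `ω ≠ 0` such that the canonical forms `A ω` are regular at all prime
divisors for all monomials (hence for all forms) `A` of degree `m` in the homogeneous coordinates
`x`: the divisor of `ω`, on all smooth models, is at least `m` times the hyperplane section. -/
def HasForm (n m : ℕ) (x : Fin (N + 1) → K) : Prop :=
  ∃ ω : (Fin n → Derivation ℂ K K) → K, IsPluri 1 ω ∧ (∃ D, ω D ≠ 0) ∧
    ∀ (f : Fin m → Fin (N + 1)) (P : Place ℂ K), Divisorial n P →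
      RegAt P (fun D => (∏ k, x (f k)) * ω D)

end

/-- The geometric genus is zero: the only canonical form which is regular at all prime divisors is
`0`. -/
def GenusZero (L : Type) [Field L] [Algebra ℂ L] (n : ℕ) : Prop :=
  ∀ ω : (Fin n → Derivation ℂ L L) → L, IsPluri 1 ω →
    (∀ P : Place ℂ L, Divisorial n P → RegAt P ω) → ∀ D, ω D = 0

/-- The varieties of dimension `n` with function field `L` are unirational: they are dominated by
the projective space of dimension `n`. -/
def IsUnirational (L : Type) [Field L] [Algebra ℂ L] (n : ℕ) : Prop :=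
  Nonempty (L →ₐ[ℂ] FractionRing (MvPolynomial (Fin n) ℂ))

/-- The varieties of dimension `n` with function field `L` are dominated by a component `M` of a
hyperplane section `H = 0` of the intersection of the hypersurfaces `F j = 0`, `j ≠ k`, and the
gradients of these equations are linearly independent at its generic point `z`. -/
def DominatedBySection {κ : Type} [DecidableEq κ] {N : ℕ} (L : Type) [Field L] [Algebra ℂ L]
    (n : ℕ) (F : κ → MvPolynomial (Fin (N + 1)) ℂ) (k : κ) : Prop :=
  ∃ (M : Type) (_ : Field M) (_ : Algebra ℂ M) (H : MvPolynomial (Fin (N + 1)) ℂ)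
    (z : Fin (N + 1) → M) (i : Fin (N + 1)), H.IsHomogeneous 1 ∧ H ≠ 0 ∧
      IsGenericPoint n (Function.update F k H) i z ∧ IsTransversal (Function.update F k H) z ∧
      Nonempty (L →ₐ[ℂ] M)

/-- **Images of complete intersections under maps of degree at most `5 m / 2 + 1`.** Let `V` be a
component, of dimension `n ≥ 1`, of the intersection of the hypersurfaces `F k = 0` of degrees
`d k`, `k ∈ κ`, in `P^N`, `N = n + |κ|`, with function field `K`. Let either the complete intersection be smooth, with
`Σ d k = m + N + 1`, or let it be reduced along `V`, and let the divisor of some canonical form of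
`V` be at least `m` times the hyperplane section. Let `W` be a smooth projective variety with
function field `L` and `V ⇢ W` a dominant rational map of degree `r ≤ 5 m / 2 + 1`. Let `s = 1`
if `r ≤ 2 m + 1` and `s = 2` otherwise, `ρ = max(r, s m + 2)`, and let `s d_k ≤ ρ + s m + 1`, and
`s d_j < ρ` for all `j ≠ k`. If `p_g(W) = 0` then `r ≥ m + 2`, and `W` is dominated by a component
of a hyperplane section of the intersection of the hypersurfaces `F j = 0`, `j ≠ k`. If moreover
`Σ_{j ≠ k} d j ≤ N - 2` then `p_g(W) = 0` if and only if `κ(W) = -∞`, if and only if `K_W` is not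
pseudo-effective, if and only if `W` is uniruled. If `V` is a hypersurface then all this is
equivalent to `W` being unirational. -/
theorem result {n N m s : ℕ} (hn : 1 ≤ n) {κ : Type} [Fintype κ] [DecidableEq κ]
    (hN : n + Fintype.card κ = N) {F : κ → MvPolynomial (Fin (N + 1)) ℂ} {d : κ → ℕ}
    (hd : ∀ k, (F k).IsHomogeneous (d k)) {K : Type} [Field K] [Algebra ℂ K] {i : Fin (N + 1)}
    {x : Fin (N + 1) → K} (hx : IsGenericPoint n F i x)
    (hV : (IsSmooth F ∧ ∑ k, d k = m + N + 1) ∨ (IsTransversal F x ∧ HasForm n m x))
    (L : Type) [Field L] [Algebra ℂ L] [Algebra L K] [IsScalarTower ℂ L K]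
    [FiniteDimensional L K] (hr : 2 * Module.finrank L K ≤ 5 * m + 2)
    (hs : s = if Module.finrank L K ≤ 2 * m + 1 then 1 else 2) {ρ : ℕ}
    (hρ : ρ = max (Module.finrank L K) (s * m + 2)) (k : κ) (hk : s * d k ≤ ρ + s * m + 1)
    (hj : ∀ j, j ≠ k → s * d j < ρ) :
    (GenusZero L n → m + 2 ≤ Module.finrank L K ∧ DominatedBySection L n F k) ∧
    (∑ j, d j + 2 ≤ N + d k →
      [GenusZero L n, ¬ KodGe ℂ L n (fun _ => False) 0, ¬ Psef ℂ L n (fun _ => False),
        IsUniruled ℂ L n].TFAE) ∧
    (Fintype.card κ = 1 →
      [GenusZero L n, ¬ KodGe ℂ L n (fun _ => False) 0, ¬ Psef ℂ L n (fun _ => False),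
        IsUniruled ℂ L n, IsUnirational L n].TFAE) := by
  classical
  have hessK : Algebra.EssFiniteType ℂ K := by
    rw [← IntermediateField.fg_top_iff]
    exact ⟨Finset.univ.image x, by
      rw [Finset.coe_image, Finset.coe_univ, Set.image_univ, hx.gen]⟩
  have hessL : Algebra.EssFiniteType ℂ L := Pool.Agent.TH466.QG.ess_below (K := K)
  have hcL : CharZero L := charZero_of_injective_algebraMap (algebraMap ℂ L).injective
  have hL : Algebra.trdeg ℂ L = n := Pool.Agent.Y184.NT.trdeg_below (K := K) hx.dim
  have hi0 : x i ≠ 0 := by
    rw [hx.one]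
    exact one_ne_zero
  obtain ⟨v, hv⟩ := Pool.Agent.Helper37K9.CI.exists_coord x (d := n) (by
    rw [hx.gen]
    have h1 : Algebra.trdeg ℂ (⊤ : IntermediateField ℂ K) = Algebra.trdeg ℂ K :=
      IntermediateField.topEquiv.trdeg_eq
    rw [h1, hx.dim])
  have hcard1 : 1 ≤ Fintype.card κ := Fintype.card_pos_iff.2 ⟨k⟩
  obtain ⟨N', rfl⟩ : ∃ N', N = N' + 1 := ⟨N - 1, by omega⟩
  have hgr : IsTransversal F x := by
    rcases hV with ⟨hsm, -⟩ | ⟨h, -⟩
    · obtain ⟨S, hS⟩ := Pool.Agent.TH145.SP.exists_minor_ne hsm hi0 hx.zero
      exact Pool.Agent.Helper37K9.CI.ind_of_jac hS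
    · exact h
  obtain ⟨ω, hω, hω0, hreg⟩ : HasForm n m x := by
    rcases hV with ⟨hsm, hm⟩ | ⟨-, h⟩
    · obtain ⟨ω, hω, hω0, hreg⟩ := Pool.Agent.Helper37K9.CI.exists_form hd hsm (m := m) (by omega)
        hN hx.zero hx.one hv
      exact ⟨ω, hω, hω0, fun f P _ => hreg f P⟩
    · exact h
  have hNLG : Pool.Agent.Y184.NT.StNLG := Pool.Agent.Y944.NT.stNLG
    (Pool.Agent.Y297.NT.t_Pull Pool.Agent.Y71.NT.t_abh) Pool.Agent.Y929.NT.t_W0
    Pool.Agent.Y888.NT.stDer
  -- the structure
  have hstr : GenusZero L n → m + 2 ≤ Module.finrank L K ∧
      ∃ (M : Type) (_ : Field M) (_ : Algebra ℂ M),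
      Nonempty (L →ₐ[ℂ] M) ∧ Algebra.trdeg ℂ M = n ∧
      ∃ (H : MvPolynomial (Fin (N' + 1 + 1)) ℂ) (z : Fin (N' + 1 + 1) → M),
        H.IsHomogeneous 1 ∧ H ≠ 0 ∧ z i = 1 ∧
        (∃ a, a ≠ i ∧ ∃ c : ℂ, z a = algebraMap ℂ M c) ∧
        IntermediateField.adjoin ℂ (Set.range z) = ⊤ ∧
        (∀ j, MvPolynomial.aeval z (Function.update F k H j) = 0) ∧
        LinearIndependent M fun (j : κ) (l : Fin (N' + 1 + 1)) =>
          MvPolynomial.aeval z (MvPolynomial.pderiv l (Function.update F k H j)) := fun hg =>
    Pool.Agent.Helper37K9.SU.structure_medium (L := L) hNLG Pool.Agent.Y929.NT.t_W0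
      Pool.Agent.Y888.NT.stDer hd hN hn hx.dim hx.one hx.gen hx.zero hgr hω hω0 hreg hg hr hs hρ k
      hk hj
  have huni : ∑ j, d j + 2 ≤ N' + 1 + d k → GenusZero L n → IsUniruled ℂ L n := by
    intro hdeg hg
    obtain ⟨-, M, iM1, iM2, ⟨ψ⟩, hM, H, z, hH, hH0, hz0, -, hzgen, hz, hind⟩ := hstr hg
    exact Pool.Agent.Helper37K9.RN.uniruled_down
      (Pool.Agent.Helper37K9.CI.uniruled_thm hd hN hM hH hz0 hzgen hz hind (by omega)) ψ
  refine ⟨fun hg => ⟨(hstr hg).1, ?_⟩, fun hdeg => ?_, fun hcard => ?_⟩
  · obtain ⟨-, M, iM1, iM2, ⟨ψ⟩, hM, H, z, hH, hH0, hz0, -, hzgen, hz, hind⟩ := hstr hg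
    exact ⟨M, iM1, iM2, H, z, i, hH, hH0, ⟨hz0, hz, hzgen, hM⟩, hind, ⟨ψ⟩⟩
  · exact Pool.Agent.Helper37K9.CI.tfae_of hL (huni hdeg)
  · have hsum : ∑ j, d j = d k := by
      rw [Fintype.sum_eq_single k]
      intro j hjk
      exact absurd (Fintype.card_le_one_iff.1 (le_of_eq hcard) j k) hjk
    have htf := Pool.Agent.Helper37K9.CI.tfae_of hL (huni (by omega))
    have h15 : GenusZero L n → IsUnirational L n := by
      intro hg
      obtain ⟨-, M, iM1, iM2, ⟨ψ⟩, hM, H, z, hH, hH0, hz0, hza, hzgen, hz, hind⟩ := hstr hg
      obtain rfl : N' = n := by omega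
      obtain ⟨φ⟩ := Pool.Agent.Helper37K9.RN.purely_of_section hM hz0 hza hzgen
      exact ⟨φ.comp ψ⟩
    have h54 : IsUnirational L n → IsUniruled ℂ L n :=
      Pool.Agent.Helper37K9.RN.uniruled_of_unirational hn
    have h12 := htf.out 0 1
    have h13 := htf.out 0 2
    have h14 := htf.out 0 3
    tfae_have 1 ↔ 2 := h12
    tfae_have 1 ↔ 3 := h13
    tfae_have 1 ↔ 4 := h14
    tfae_have 1 → 5 := h15
    tfae_have 5 → 4 := h54
    tfae_finish

end Pool.Agent.Results.MP_23b606_ag.ImagesOfHigherDegree
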