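import Pool.Agent.Helper11K9.PC.Main

/-!
# Pseudo-effective canonical class and Kodaira dimension of the images of products of curves

Let `V = C_1 × ... × C_n` be a product of arbitrary smooth projective curves over the complex numbers
(`n` is arbitrary) and let `γ_i` be the gonality of `C_i`. Let `V ⇢ W` be any dominant rational map of
degree `r` to a smooth projective variety `W` of dimension `n`; nothing is assumed about the map (it
need not be a quotient by a group or respect the product structure, its ramification is arbitrary) or
about `W`. Assume `r + 3 ≤ γ_i + γ_j` for all `i ≠ j`. Then these are equivalent: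

* `p_g(W) = 0`;
* `κ(W) = -∞`;
* `K_W` is not pseudo-effective;
* `W` is uniruled.

If they hold, then `γ_i ≤ r` for some `i`; so if `r` is smaller than all gonalities then
`p_g(W) ≠ 0`.

Proof. Let `K` be the function field of `V` and `L` the one of `W`. If `p_g(W) = 0` then the traces to
`L` of the exterior products `f_1 ⊗ ... ⊗ f_n` of regular differentials of the curves are zero. By
Serre duality the regular differentials of `C_i` separate fewer than `γ_i` points. We specialise:
fewer than `γ_i` distinct embeddings of the function field of `C_i` over `ℂ` in a field `Ω` are
linearly independent over `Ω` on the regular differentials. Hence, if the degree of the field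
generated by a field `E` and the function field of `C_i` over `E` is less than `γ_i`, and the traces
to `E` of all products are zero, then the factor `i` can be removed and `E` enlarged. If this is
impossible for all remaining factors `i`, and there are at least two of them, then the differentials
of `C_i` and of `C_j` span subspaces over `E` of dimensions at least `γ_i - 1` and `γ_j - 1`, which are
orthogonal for a nondegenerate form on a space of dimension at most `r`: this is impossible. So there
is a field `E` over `L` which contains the function fields of all factors but one, `C_i`, and to
which the traces of the differentials of `C_i` are zero. The regular differentials of the curve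
`C_i` over the algebraic closure of the function field of the product of the other curves are spanned
by those of `C_i` over `ℂ`; so the curve over this field with the function field given by `E` has no
regular differentials, and is rational.

The function-field language of the starting repository is used. A canonical form (`IsPluri 1`) on a
variety of dimension `n` is a function of `n` rational vector fields; it is regular at the prime
divisor `P` (`Place`, `Divisorial`, `RegAt`) if its value on vector fields which are regular at `P`
is regular at `P`; `GenusZero L n` says that all regular canonical forms are zero.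
`KodGe ℂ L n (fun _ => False) 0` says that `κ(W) ≥ 0`, `Psef ℂ L n (fun _ => False)` that `K_W` is
pseudo-effective, `IsUniruled ℂ L n` that `W` is uniruled.
-/

set_option autoImplicit false
set_option linter.overlappingInstances false

open FF Pool.Agent.W602.GT
open Pool.Agent.W619.PQ (IsUniruled)
open Pool.Agent.R882.Over (GenusZero)

namespace Pool.Agent.Results.MP_23b606_ag.ImagesOfProductsOfCurves

/-- `K` is the function field of a product of `n` curves over `ℂ`, and the `F i` are the function
fields of the curves (embedded in `K` by the projections): they are finitely generated of
transcendence degree one, they generate `K`, and the transcendence degree of `K` is `n`. -/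
structure IsProductOfCurves {K : Type} [Field K] [Algebra ℂ K] {n : ℕ}
    (F : Fin n → IntermediateField ℂ K) : Prop where
  curve : ∀ i, IsFF ℂ (F i)
  gen : ⨆ i, F i = ⊤
  dim : Algebra.trdeg ℂ K = n

/-- The gonality of a curve with the function field `F`: the least degree of a nonconstant rational
function `t`, that is, of `F` over `ℂ(t)`. -/
noncomputable def gonality (F : Type) [Field F] [Algebra ℂ F] : ℕ :=
  sInf {d : ℕ | ∃ t : F, Transcendental ℂ t ∧
    d = Module.finrank (IntermediateField.adjoin ℂ {t}) F}

/-- **Images of products of curves.** Let `K` be the function field of a product of `n` curves with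
the function fields `F i` and let `L` be a subfield of finite index (the function field of a smooth
projective variety `W` dominated by the product, with degree `r = [K : L]`). If
`r + 3 ≤ gonality (F i) + gonality (F j)` for all `i ≠ j` then `p_g(W) = 0`, `κ(W) = -∞`, `K_W` is not
pseudo-effective and `W` is uniruled are equivalent, and if `W` is uniruled then some curve has
gonality at most `r`. -/
theorem result {n : ℕ} {K : Type} [Field K] [Algebra ℂ K] (F : Fin n → IntermediateField ℂ K)
    (hF : IsProductOfCurves F) (L : IntermediateField ℂ K) [FiniteDimensional L K]
    (hr : ∀ i j, i ≠ j → Module.finrank L K + 3 ≤ gonality (F i) + gonality (F j)) :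
    [GenusZero L n, ¬ KodGe ℂ L n (fun _ => False) 0, ¬ Psef ℂ L n (fun _ => False),
      IsUniruled ℂ L n].TFAE ∧
    (IsUniruled ℂ L n → ∃ i, gonality (F i) ≤ Module.finrank L K) := by
  have hcurve := hF.curve
  have hessK : Algebra.EssFiniteType ℂ K := Pool.Agent.Helper11K9.PC.ess_top F hF.gen
  have hessL : Algebra.EssFiniteType ℂ L := Pool.Agent.TH466.QG.ess_below (K := K)
  have hL : Algebra.trdeg ℂ L = n := Pool.Agent.Y184.NT.trdeg_below (K := K) hF.dim
  have hγ : ∀ i (t : F i), Transcendental ℂ t →
      gonality (F i) ≤ Module.finrank (IntermediateField.adjoin ℂ {t}) (F i) :=
    fun i t ht => Nat.sInf_le ⟨t, ht, rfl⟩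
  have key : GenusZero L n → IsUniruled ℂ L n ∧ ∃ i, gonality (F i) ≤ Module.finrank L K :=
    fun hg => Pool.Agent.Helper11K9.PC.images F hF.gen hF.dim hγ L hr hg
  have h21 : ¬ KodGe ℂ L n (fun _ => False) 0 → GenusZero L n := by
    intro h ω hω hreg D
    by_contra hne
    refine h ⟨1, one_pos, fun _ => ω, fun _ => ⟨hω, fun P hP D' hD' => ?_,
      fun P hP _ => hreg P hP⟩, D, hne, ?_⟩
    · exact hreg P hP D' fun i => Pool.Agent.TH466.QG.derReg_of_log (hD' i)
    · exact algebraicIndependent_empty_type
  have h43 : IsUniruled ℂ L n → ¬ Psef ℂ L n (fun _ => False) := fun h h' =>
    (Pool.Agent.W619.Y.uniruled_neg n hL h).1 ((Pool.Agent.TH466.QG.psef_iff n).1 h')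
  have h32 : ¬ Psef ℂ L n (fun _ => False) → ¬ KodGe ℂ L n (fun _ => False) 0 :=
    fun h h' => h (psef_of_kodGe h')
  refine ⟨?_, fun h => (key (h21 (h32 (h43 h)))).2⟩
  tfae_have 1 → 4 := fun h => (key h).1
  tfae_have 4 → 3 := h43
  tfae_have 3 → 2 := h32
  tfae_have 2 → 1 := h21
  tfae_finish

end Pool.Agent.Results.MP_23b606_ag.ImagesOfProductsOfCurves
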