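import Pool.Agent.Helper11K9.KN.Gen

/-!
# Images of varieties without canonical forms, and linear spans of fibres

Let `V` be a smooth projective variety over the complex numbers of dimension `n` with rational maps
`φ_i : V ⇢ ℙ ^ (N_i)`, `i = 1, ..., k`, such that `K_V - ∑ φ_i ^* H_i` is effective (on a resolution
of the `φ_i`, where the `H_i` are hyperplanes; the same map may be used several times). Let `V ⇢ W` be
any dominant rational map to a smooth projective variety `W` of dimension `n`.

**Theorem.** If `p_g(W) = 0` then `V ⇢ W` factors as `V ⇢ V' ⇢ W` such that the degree `e` of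
`V ⇢ V'` is greater than one and

  `e ≥ 2 + ∑ dim ⟨φ_i (F')⟩`,

where `F'` is the general fibre of `V ⇢ V'` and `⟨φ_i (F')⟩` is the linear span of its image.

Nothing else is assumed about the map (it need not be a quotient by a group, its ramification is
arbitrary) or about `V`, `W`. If `V ⇢ W` does not factor through a third variety, for example if its
degree `r` is prime, then the condition says that `p_g(W) > 0` if `r ≤ 1 + ∑ dim ⟨φ_i (F)⟩` for the
general fibre `F` of `V ⇢ W`. Then `κ(W) ≥ 0`, the canonical divisor of `W` is pseudo-effective and
`W` is not uniruled. Consequences (not formalised):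

* Let `K_V - m f ^* H` be effective, let `r` be prime and `p_g(W) = 0`. Then the image under `f` of the
  general fibre of `V ⇢ W` is contained in a linear space of dimension at most `(r - 2) / m`. This
  was known if `m > (r - 2) / 2` (points or lines; Cayley-Bacharach condition of degree `m`). In other
  words, the conjecture of Levinson and Ullery on plane configurations which contain
  Cayley-Bacharach sets holds for the fibres of maps of prime degree, in all dimensions.
* Let `K_V - ∑ m_i f_i ^* H_i` be effective, and suppose that each `f_i` is injective on the general
  fibre of `V ⇢ W`. If the degree is at most `1 + ∑ m_i` then `p_g(W) > 0` (for `k = 1` this is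
  known). Indeed all the spans have dimension at least one.
* Let `π_i : V ⇢ C_i` be maps to curves of genera `g_i ≥ 1` such that `K_V - ∑ π_i ^* K_{C_i}` is
  effective, for example let `V` be generically finite over a product of `n` curves. Let `r` be an odd
  prime, and let `S` be the set of the `π_i` which do not factor through `W`. By Clifford's theorem
  the linear span of `r` points of a canonical curve of genus `g` has dimension at least
  `min (g, (r + 1) / 2) - 1`. So `p_g(W) > 0` if `r ≤ 1 + ∑_{i ∈ S} (min (g_i, (r + 1) / 2) - 1)`.

The bounds are sharp: let `V` be a resolution of a hypersurface in `(ℙ ^ 1) ^ (n + 1)` of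
multidegree `(m_1 + 2, ..., m_(n+1) + 2)` which has ordinary points of multiplicity `n` at
`(0, ..., 0)` and `(∞, ..., ∞)` and is smooth elsewhere. These singularities are canonical, so that
the canonical divisor of `V` is the pull-back of `O(m_1, ..., m_(n+1))`. The map
`(t_1 : ... : t_(n+1))` from `V` to `W = ℙ ^ n` has degree `2 + ∑ m_i`, the coordinates are injective
on its fibres and `p_g(W) = 0`. If the `m_i` are positive and `V` is general then the map does not
factor. (This example is not formalised.)

Proof. Let `K ⊇ L` be the function fields of `V` and `W`. Let `Ω` be the form with the divisor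
`K_V - ∑ φ_i ^* H_i`, and let `U_i` be the subspace over `L` of `K` which is generated by the
coordinates of `φ_i`. If `p_g(W) = 0` then the traces from `K` to `L` of the forms `u_1 ... u_k Ω`
vanish for all coordinates `u_i` of `φ_i`. So the product `P = U_1 ... U_k` of subspaces is in the
kernel of a nonzero linear form, and `P ≠ K`. Let `M` be the stabiliser of `P`, an intermediate field
which is not `K`. By Kneser's theorem for field extensions (Hou, Leung and Xiang)

  `dim_M P ≥ ∑ (dim_M (M U_i) - 1) + 1`,

and `dim_M P < [K : M]`. This is the assertion for the variety `V'` with the function field `M`. The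
theorem of Hou, Leung and Xiang is proved here as well.

The function-field language of the starting repository is used. A canonical form (`IsPluri 1`) on a
variety of dimension `n` is a function of `n` rational vector fields; it is regular at the prime
divisor `P` (`Place`, `Divisorial`, `RegAt`) if its value on vector fields which are regular at `P`
is regular at `P`.
-/

set_option autoImplicit false
set_option linter.overlappingInstances false

open FF Pool.Agent.W602.GT

namespace Pool.Agent.Results.MP_23b606_ag.LinearSpansOfFibres

/-- The field `K` is the function field of a variety of dimension `n` over `ℂ`. -/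
structure IsFunctionField (K : Type) [Field K] [Algebra ℂ K] (n : ℕ) : Prop where
  fg : (⊤ : IntermediateField ℂ K).FG
  dim : Algebra.trdeg ℂ K = n

/-- The form `Ω` is regular at all prime divisors over `V`. -/
def IsRegular {K : Type} [Field K] [Algebra ℂ K] (n : ℕ) (Ω : (Fin n → Derivation ℂ K K) → K) :
    Prop :=
  ∀ P : Place ℂ K, Divisorial n P → RegAt P Ω

/-- Let `u i j`, `j = 1, ..., a i`, be the homogeneous coordinates (not all zero) of rational maps
`φ i` from `V` to projective spaces. There is a canonical form `Ω ≠ 0` on `V` such that all the forms
`u_1 ... u_k Ω`, where each `u_i` is one of the coordinates of `φ i`, are regular at all prime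
divisors: the canonical divisor of `V` is the sum of the `(φ i) ^* H i` and an effective divisor. -/
def HasTwistedForm {K : Type} [Field K] [Algebra ℂ K] (n : ℕ) {k : ℕ} {a : Fin k → ℕ}
    (u : ∀ i, Fin (a i) → K) : Prop :=
  (∀ i, ∃ j, u i j ≠ 0) ∧ ∃ Ω : (Fin n → Derivation ℂ K K) → K, IsPluri 1 Ω ∧ (∃ D, Ω D ≠ 0) ∧
    ∀ e : (i : Fin k) → Fin (a i), IsRegular n fun D => (∏ i, u i (e i)) * Ω D

/-- The geometric genus is zero: the only canonical form which is regular at all prime divisors is
`0`. -/
def GenusZero (L : Type) [Field L] [Algebra ℂ L] (n : ℕ) : Prop :=
  ∀ ω : (Fin n → Derivation ℂ L L) → L, IsPluri 1 ω → IsRegular n ω → ∀ D, ω D = 0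

/-- Let `M ⊆ K` be the function fields of `V' ⇠ V`, and let `u` be the homogeneous coordinates of a
rational map `φ` from `V` to a projective space. This is the dimension of the linear span of the image
under `φ` of the general fibre of `V ⇢ V'`: the dimension of the subspace over `M` of `K` which is
generated by the coordinates, minus one. -/
noncomputable def spanDim (M : Type) {K : Type} [Field M] [Field K] [Algebra M K] {a : ℕ}
    (u : Fin a → K) : ℕ :=
  Module.finrank M (Submodule.span M (Set.range u)) - 1

/-- **Canonical forms of images and linear spans of fibres.** Let `K` be the function field of a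
variety `V` of dimension `n`, let `u i` be the homogeneous coordinates of rational maps `φ i` from `V`
to projective spaces, and let `K_V` be the sum of the `(φ i) ^* H i` and an effective divisor. Let `L`
be a subfield of finite index, the function field of a variety `W` dominated by `V`. Assume that for
every intermediate field `M ≠ K` (that is, for all factorisations `V ⇢ V' ⇢ W` where `V ⇢ V'` has
degree greater than one), the degree of `V ⇢ V'` is at most one plus the sum of the dimensions of the
linear spans of the images of its general fibre under the `φ i`. Then the geometric genus of `W` is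
positive. -/
theorem result {n k : ℕ} {K : Type} [Field K] [Algebra ℂ K] (hK : IsFunctionField K n)
    {a : Fin k → ℕ} (u : ∀ i, Fin (a i) → K) (hV : HasTwistedForm n u)
    (L : IntermediateField ℂ K) [FiniteDimensional L K]
    (h : ∀ M : IntermediateField L K, M ≠ ⊤ →
      Module.finrank M K ≤ 1 + ∑ i, spanDim M (u i)) : ¬ GenusZero L n := by
  have hess : Algebra.EssFiniteType ℂ K := IntermediateField.fg_top_iff.1 hK.fg
  obtain ⟨hu, Ω, hΩ, hΩ0, hreg⟩ := hV
  refine Pool.Agent.Helper11K9.KN.gen_kn hK.dim hu hΩ hΩ0 hreg L fun M hM => ?_
  have h1 := h M hM
  have h2 : ∀ i, 1 ≤ Module.finrank M (Submodule.span M (Set.range (u i))) := fun i => by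
    obtain ⟨j, hj⟩ := hu i
    have h3 : (⟨u i j, Submodule.subset_span ⟨j, rfl⟩⟩ : Submodule.span M (Set.range (u i))) ≠ 0 :=
      fun h => hj (congrArg Subtype.val h)
    exact Module.finrank_pos_iff_exists_ne_zero.2 ⟨_, h3⟩
  have h3 : ∑ i, spanDim M (u i) + k =
      ∑ i, Module.finrank M (Submodule.span M (Set.range (u i))) := by
    have h4 : ∑ i : Fin k, (spanDim M (u i) + 1) = ∑ i, spanDim M (u i) + k := by
      rw [Finset.sum_add_distrib, Finset.sum_const, Finset.card_univ, Fintype.card_fin,
        smul_eq_mul, mul_one]
    rw [← h4]
    refine Finset.sum_congr rfl fun i _ => ?_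
    have := h2 i
    unfold spanDim
    omega
  omega

end Pool.Agent.Results.MP_23b606_ag.LinearSpansOfFibres
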