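import Pool.Agent.Helper11K9.KR.Cur

/-!
# Images of varieties with many maps to curves have canonical forms

Let `V` be a smooth projective variety over the complex numbers of dimension `n` with dominant
rational maps `π_i : V ⇢ C_i`, `i = 1, ..., k`, to smooth projective curves of genera `g_i ≥ 1`, such
that `K_V - ∑ π_i ^* K_{C_i}` is effective (on a resolution of the `π_i`). For example:

* `V` may be any variety which is generically finite over a product of `n` curves (`twistedForm`
  below), for `k = n`;
* `V` may be a smooth complete intersection of very ample divisors in a product of `k > n` curves;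
* `V` may be the product of such a variety with an arbitrary variety of positive geometric genus.

Let `V ⇢ W` be any dominant rational map of degree `r` to a smooth projective variety `W` of
dimension `n`, and suppose that each `π_i` is injective on its general fibre, that is, that
`V ⇢ W × C_i` is birational onto its image. (If `r` is prime then each `π_i` has this property or
factors through `W`; one may omit those which factor.) Suppose that there is a number `c ≥ 3` such
that at least two of the curves, one of them not hyperelliptic, have genus at least `c`, and

  `r < ∑ (min (g_i, c) - 1)`.

(For example, `r < k (g - 1)` is sufficient if all curves have genus at least `g ≥ 3`, one of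
them is not hyperelliptic, and `k ≥ 2`.) Then `p_g(W) > 0`. So `κ(W) ≥ 0`, the canonical divisor of
`W` is pseudo-effective and `W` is not uniruled. Nothing else is assumed about the map (it need not be
a quotient by a group, its ramification is arbitrary) or about `V`, `W`.

For `k = 2` the bound is nearly optimal: let `C` be the curve `y ^ 2 = x ^ (2 g + 1) + 1` of genus `g`
and let `W` be the quotient of `C × C` by the diagonal action of the roots of unity of order
`2 g + 1` on `x`. Then `r = 2 g + 1 = ∑ (g_i - 1) + 3` and `p_g(W) = 0`. (Here both curves are
hyperelliptic. This example, the second and the third example above and the remark on prime degrees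
are not formalised.)

Proof. Let `K ⊇ L` be the function fields of `V` and `W`, and `F_i` the one of `C_i`. Let `Ω` be the
form with the divisor `K_V - ∑ π_i ^* K_{C_i}`, with values in the duals of the canonical bundles of
the curves. If `W` has no canonical forms then the traces from `K` to `L` of the products of `Ω` and
regular differentials of the curves vanish. This is a linear relation with nonzero coefficients
between the values of the products of regular differentials at the `r` points of the generic fibre of
`V ⇢ W`; the projections to the curves are injective on these points.

By Clifford's theorem the regular differentials of `C_i` have rank at least `min (g_i, x / 2)` at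
`x` points; a differential which vanishes at one point less than the rank gives a relation between
fewer points for the other curves. In the end two curves remain, the ranks of which add up to more
than the number of points, by the strict form of Clifford's inequality; but they are orthogonal, a
contradiction. (This is the idea of the proof of Kruskal's theorem on the linear independence of
tensors of rank one.)

The function-field language of the starting repository is used. A canonical form (`IsPluri 1`) on a
variety of dimension `n` is a function of `n` rational vector fields; it is regular at the prime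
divisor `P` (`Place`, `Divisorial`, `RegAt`) if its value on vector fields which are regular at `P`
is regular at `P`.
-/

set_option autoImplicit false
set_option linter.overlappingInstances false

open FF Pool.Agent.W602.GT
open Pool.Agent.Helper11K9.PR (regForms)

namespace Pool.Agent.Results.MP_23b606_ag.ManyMapsToCurves

/-- `K` is the function field of a variety of dimension `n` over `ℂ`. -/
structure IsFunctionField (K : Type) [Field K] [Algebra ℂ K] (n : ℕ) : Prop where
  fg : (⊤ : IntermediateField ℂ K).FG
  dim : Algebra.trdeg ℂ K = n

/-- The gonality of a curve with the function field `F`: the least degree of a nonconstant rational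
function `t`, that is, of `F` over `ℂ(t)`. -/
noncomputable def gonality (F : Type) [Field F] [Algebra ℂ F] : ℕ :=
  sInf {d : ℕ | ∃ t : F, Transcendental ℂ t ∧
    d = Module.finrank (IntermediateField.adjoin ℂ {t}) F}

/-- The genus of a curve over `k` with the function field `F`: the dimension of the space
`regForms k F` of regular differential forms. -/
noncomputable def genus (k F : Type) [Field k] [Field F] [Algebra k F] : ℕ :=
  Module.finrank k (regForms k F)

/-- The definition of `regForms`: a differential form `ω` on a curve with the function field `F`, an
`F`-linear map from the rational vector fields (the derivations of `F` over `k`) to `F`, is regular if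
`ω δ` has no pole at `P` for all points (places) `P` and all vector fields `δ` regular at `P`. -/
theorem mem_regForms {k F : Type} [Field k] [Field F] [Algebra k F]
    {ω : Derivation k F F →ₗ[F] F} : ω ∈ regForms k F ↔
      ∀ (P : Place k F) (δ : Derivation k F F), (∀ f, P.Reg f → P.Reg (δ f)) → P.Reg (ω δ) := Iff.rfl

/-- The values of the regular differential forms of a curve at the rational vector field `δ`. -/
def values {F : Type} [Field F] [Algebra ℂ F] (δ : Derivation ℂ F F) : Set F :=
  {x | ∃ ω ∈ regForms ℂ F, ω δ = x}

/-- The form `Ω` is regular at all prime divisors over `V`. -/
def IsRegular {K : Type} [Field K] [Algebra ℂ K] (n : ℕ) (Ω : (Fin n → Derivation ℂ K K) → K) :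
    Prop :=
  ∀ P : Place ℂ K, Divisorial n P → RegAt P Ω

/-- The `F i` are the function fields of curves `C_i`, embedded in the function field `K` of `V` by
dominant rational maps `π_i : V ⇢ C_i`. There are a canonical form `Ω ≠ 0` on `V` and rational vector
fields `δ_i ≠ 0` on the curves such that `ω_1 (δ_1) ... ω_k (δ_k) Ω` is regular at all prime divisors
for all regular differential forms `ω_i` on the curves. In other words `δ_1 ... δ_k Ω` is a nonzero
section of `K_V - ∑ π_i ^* K_{C_i}` (if all genera are at least one, so that the canonical bundles of
the curves are generated by their sections). -/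
def HasTwistedForm {K : Type} [Field K] [Algebra ℂ K] (n : ℕ) {k : ℕ}
    (F : Fin k → IntermediateField ℂ K) : Prop :=
  ∃ (Ω : (Fin n → Derivation ℂ K K) → K) (δ : ∀ i, Derivation ℂ (F i) (F i)),
    IsPluri 1 Ω ∧ (∃ D, Ω D ≠ 0) ∧ (∀ i, δ i ≠ 0) ∧
    ∀ f : ∀ i, F i, (∀ i, f i ∈ values (δ i)) → IsRegular n fun D => (∏ i, (f i : K)) * Ω D

/-- Varieties which are generically finite over a product of `n` curves have a twisted form. -/
theorem twistedForm {K : Type} [Field K] [Algebra ℂ K] {n : ℕ} (hn : Algebra.trdeg ℂ K = n)
    (F : Fin n → IntermediateField ℂ K) (hF : ∀ i, IsFF ℂ (F i))
    (halg : Algebra.IsAlgebraic (⨆ i, F i : IntermediateField ℂ K) K) : HasTwistedForm n F := by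
  obtain ⟨W, δ, h1, h2, h3, h4⟩ := Pool.Agent.Helper11K9.KR.form_of_finite hn F hF halg
  refine ⟨W, δ, h1, h2, h3, fun f hf P hP => ?_⟩
  choose ω hω hωf using hf
  have h5 := h4 ω hω P hP
  simp only [hωf] at h5
  exact h5

/-- The `F i` are function fields of curves of positive genus, and each of them generates `K` over
`L`. -/
structure GeneratingCurves {K : Type} [Field K] [Algebra ℂ K] {k : ℕ}
    (F : Fin k → IntermediateField ℂ K) (L : IntermediateField ℂ K) : Prop where
  curve : ∀ i, IsFF ℂ (F i)
  genus_pos : ∀ i, 1 ≤ genus ℂ (F i)
  gen : ∀ i, IntermediateField.adjoin L (F i : Set K) = ⊤

/-- At least two of the curves have genus at least `c`, and one of them has gonality at least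
three. -/
def TwoLarge {K : Type} [Field K] [Algebra ℂ K] {k : ℕ} (F : Fin k → IntermediateField ℂ K)
    (c : ℕ) : Prop :=
  ∃ p q, p ≠ q ∧ c ≤ genus ℂ (F p) ∧ c ≤ genus ℂ (F q) ∧ 3 ≤ gonality (F q)

/-- The sum of the numbers `min (g_i, c) - 1` for the genera `g_i` of the curves. -/
noncomputable def genusSum {K : Type} [Field K] [Algebra ℂ K] {k : ℕ}
    (F : Fin k → IntermediateField ℂ K) (c : ℕ) : ℕ :=
  ∑ i, (min (genus ℂ (F i)) c - 1)

/-- The geometric genus is zero: the only canonical form which is regular at all prime divisors is
`0`. -/
def GenusZero (L : Type) [Field L] [Algebra ℂ L] (n : ℕ) : Prop :=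
  ∀ ω : (Fin n → Derivation ℂ L L) → L, IsPluri 1 ω → IsRegular n ω → ∀ D, ω D = 0

/-- **Images of varieties with many maps to curves.** Let `K` be the function field of a variety `V`
of dimension `n`, let `F i` be the function fields of curves of positive genus, embedded in `K` by
maps `π_i` such that `K_V` is the sum of the `π_i ^* K_{C_i}` and an effective divisor. Let `L` be a
subfield of finite index (the function field of a variety `W` dominated by `V`, with degree
`[K : L]`) such that `K` is generated by `F i` over `L`, for each `i`. Assume that at least two of the
curves have genus at least `c ≥ 3`, one of them with gonality at least three, and that `[K : L]` is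
less than the sum of the numbers `min (g_i, c) - 1`. Then the geometric genus of `W` is positive. -/
theorem result {n k : ℕ} {K : Type} [Field K] [Algebra ℂ K] (hK : IsFunctionField K n)
    (F : Fin k → IntermediateField ℂ K) (hV : HasTwistedForm n F) (L : IntermediateField ℂ K)
    [FiniteDimensional L K] (hF : GeneratingCurves F L) {c : ℕ} (hc : 3 ≤ c) (hlarge : TwoLarge F c)
    (hr : Module.finrank L K < genusSum F c) : ¬ GenusZero L n := by
  have hess : Algebra.EssFiniteType ℂ K := IntermediateField.fg_top_iff.1 hK.fg
  obtain ⟨Ω, δ, hΩ, hΩ0, hδ, hreg⟩ := hV
  obtain ⟨p, q, hpq, hp, hq, hgon⟩ := hlarge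
  exact (Pool.Agent.Helper11K9.KR.cur hK.dim F hF.curve hΩ hΩ0 hδ (fun ω hω P hP =>
    hreg (fun i => ω i (δ i)) (fun i => ⟨ω i, hω i, rfl⟩) P hP) L hF.gen hF.genus_pos hc hpq hp hq
    hgon).1 hr

end Pool.Agent.Results.MP_23b606_ag.ManyMapsToCurves
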